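import Mathlib

set_option autoImplicit false

namespace Pool.Agent.Results.MP_af1a28_nt.UpperBound

open Finset

/-- The cubes `1³, 2³, …, N³`. -/
def cubes (N : ℕ) : Finset ℕ := (Finset.Icc 1 N).image (fun a => a ^ 3)

/-- `A` is a Sidon set: `a + b = c + d` forces `{a, b} = {c, d}`. -/
def IsSidon (A : Finset ℕ) : Prop :=
  ∀ a ∈ A, ∀ b ∈ A, ∀ c ∈ A, ∀ d ∈ A, a + b = c + d → (a = c ∧ b = d) ∨ (a = d ∧ b = c)

open Classical in
/-- The largest size of a Sidon subset of the first `N` positive cubes. -/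
noncomputable def fmax (N : ℕ) : ℕ :=
  ((cubes N).powerset.filter IsSidon).sup Finset.card

/-- The dilation factors: positive integers up to `N / 12` prime to `15`. -/
def tset (N : ℕ) : Finset ℕ := (Finset.Icc 1 (N / 12)).filter (fun t => t % 3 ≠ 0 ∧ t % 5 ≠ 0)

theorem tset_card (N : ℕ) : 8 * (N / 12 / 15) ≤ (tset N).card := by
  classical
  have hR : (({1, 2, 4, 7, 8, 11, 13, 14} : Finset ℕ)).card = 8 := by decide
  have hsub : ((Finset.range (N / 12 / 15)) ×ˢ ({1, 2, 4, 7, 8, 11, 13, 14} : Finset ℕ)).image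
      (fun x => 15 * x.1 + x.2) ⊆ tset N := by
    intro t ht
    rw [mem_image] at ht
    obtain ⟨⟨k, r⟩, hx, rfl⟩ := ht
    rw [mem_product, mem_range] at hx
    obtain ⟨hk, hr⟩ := hx
    simp only at hk hr
    have hr' : (r = 1 ∨ r = 2 ∨ r = 4 ∨ r = 7 ∨ r = 8 ∨ r = 11 ∨ r = 13 ∨ r = 14) := by
      simpa using hr
    unfold tset
    rw [mem_filter, mem_Icc]
    simp only
    omega
  have hinj : Set.InjOn (fun x : ℕ × ℕ => 15 * x.1 + x.2)
      ((Finset.range (N / 12 / 15)) ×ˢ ({1, 2, 4, 7, 8, 11, 13, 14} : Finset ℕ) : Finset (ℕ × ℕ)) := by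
    rintro ⟨k, r⟩ hx ⟨k', r'⟩ hx' h
    rw [mem_coe, mem_product, mem_range] at hx hx'
    obtain ⟨hk, hr⟩ := hx
    obtain ⟨hk', hr'⟩ := hx'
    simp only at hk hr hk' hr' h
    have h1 : (r = 1 ∨ r = 2 ∨ r = 4 ∨ r = 7 ∨ r = 8 ∨ r = 11 ∨ r = 13 ∨ r = 14) := by
      simpa using hr
    have h2 : (r' = 1 ∨ r' = 2 ∨ r' = 4 ∨ r' = 7 ∨ r' = 8 ∨ r' = 11 ∨ r' = 13 ∨ r' = 14) := by
      simpa using hr'
    have h3 : k = k' := by omega
    have h4 : r = r' := by omega
    rw [h3, h4]
  have := Finset.card_le_card hsub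
  rw [Finset.card_image_of_injOn hinj, card_product, card_range, hR] at this
  omega

/-- A set of integers up to `N` that contains no dilate of `1, 9, 10, 12` misses many integers. -/
theorem missing (N : ℕ) (A : Finset ℕ) (hA : A ⊆ Finset.Icc 1 N)
    (h : ∀ t, 1 ≤ t → ¬ (t ∈ A ∧ 9 * t ∈ A ∧ 10 * t ∈ A ∧ 12 * t ∈ A)) :
    A.card + (tset N).card ≤ N := by
  classical
  let g : ℕ → ℕ := fun t => if t ∉ A then t else if 9 * t ∉ A then 9 * t else
    if 10 * t ∉ A then 10 * t else 12 * t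
  have hg : ∀ t ∈ tset N, g t ∈ Finset.Icc 1 N \ A := by
    intro t ht
    unfold tset at ht
    rw [mem_filter, mem_Icc] at ht
    have hN : 12 * t ≤ N := by omega
    have h1 := h t ht.1.1
    rw [mem_sdiff, mem_Icc]
    by_cases c1 : t ∈ A
    · by_cases c2 : 9 * t ∈ A
      · by_cases c3 : 10 * t ∈ A
        · have c4 : 12 * t ∉ A := fun c4 => h1 ⟨c1, c2, c3, c4⟩
          have hgt : g t = 12 * t := by simp [g, c1, c2, c3]
          rw [hgt]
          exact ⟨⟨by omega, by omega⟩, c4⟩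
        · have hgt : g t = 10 * t := by simp [g, c1, c2, c3]
          rw [hgt]
          exact ⟨⟨by omega, by omega⟩, c3⟩
      · have hgt : g t = 9 * t := by simp [g, c1, c2]
        rw [hgt]
        exact ⟨⟨by omega, by omega⟩, c2⟩
    · have hgt : g t = t := by simp [g, c1]
      rw [hgt]
      exact ⟨⟨by omega, by omega⟩, c1⟩
  have hcase : ∀ t, g t = t ∨ g t = 9 * t ∨ g t = 10 * t ∨ g t = 12 * t := by
    intro t
    simp only [g]
    split_ifs <;> simp
  have hinj : Set.InjOn g (tset N : Set ℕ) := by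
    intro t ht u hu hgu
    unfold tset at ht hu
    rw [mem_coe, mem_filter, mem_Icc] at ht hu
    rcases hcase t with a | a | a | a <;> rcases hcase u with b | b | b | b <;>
      rw [a, b] at hgu <;> omega
  have h2 : (tset N).card ≤ (Finset.Icc 1 N \ A).card :=
    Finset.card_le_card_of_injOn g hg hinj
  have h3 : (Finset.Icc 1 N \ A).card = N - A.card := by
    rw [Finset.card_sdiff_of_subset hA, Nat.card_Icc]
    omega
  have h4 : A.card ≤ N := by
    have := Finset.card_le_card hA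
    rw [Nat.card_Icc] at this
    omega
  omega

/-- Every Sidon subset of `{1³, …, N³}` has at most `(43/45) N + 8` elements. -/
theorem result : ∀ N : ℕ, (fmax N : ℝ) ≤ 43 / 45 * (N : ℝ) + 8 := by
  classical
  intro n
  have hne : ((cubes n).powerset.filter IsSidon).Nonempty := by
    refine ⟨∅, ?_⟩
    rw [mem_filter, mem_powerset]
    exact ⟨Finset.empty_subset _, fun a ha => absurd ha (Finset.notMem_empty a)⟩
  obtain ⟨S, hS, hcard⟩ := Finset.exists_mem_eq_sup _ hne Finset.card
  have hk : fmax n = S.card := by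
    unfold fmax
    convert hcard
  rw [hk]
  rw [mem_filter, mem_powerset] at hS
  set A : Finset ℕ := (Finset.Icc 1 n).filter (fun a => a ^ 3 ∈ S) with hA
  have hAS : S ⊆ A.image (fun a => a ^ 3) := by
    intro s hs
    have h1 := hS.1 hs
    unfold cubes at h1
    rw [mem_image] at h1
    obtain ⟨a, ha, rfl⟩ := h1
    rw [mem_image]
    exact ⟨a, by rw [hA, mem_filter]; exact ⟨ha, hs⟩, rfl⟩
  have hSA : S.card ≤ A.card := (Finset.card_le_card hAS).trans Finset.card_image_le
  have hmiss := missing n A (Finset.filter_subset _ _) (by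
    rintro t ht ⟨h1, h9, h10, h12⟩
    rw [hA, mem_filter] at h1 h9 h10 h12
    have := hS.2 _ h1.2 _ h12.2 _ h9.2 _ h10.2 (by ring)
    have ht3 : 0 < t ^ 3 := by positivity
    rcases this with h | h
    · have := h.1
      rw [mul_pow] at this
      omega
    · have := h.1
      rw [mul_pow] at this
      omega)
  have hT := tset_card n
  have h5 : S.card + 8 * (n / 12 / 15) ≤ n := by omega
  have h6 : 45 * S.card ≤ 43 * n + 360 := by omega
  have h7 : (45 : ℝ) * (S.card : ℝ) ≤ 43 * (n : ℝ) + 360 := by exact_mod_cast h6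
  linarith

end Pool.Agent.Results.MP_af1a28_nt.UpperBound
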